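import Pool.Agent.Helper260_edgecol.Defs

set_option autoImplicit false

namespace Pool.Agent.Helper260

open MeasureTheory Pool.Agent.R987.Bern

instance : Countable F2 := Function.Injective.countable FreeGroup.toWord_injective

theorem borel_eq : (inferInstance : MeasurableSpace Pt) = borel Pt := BorelSpace.measurable_eq

instance : IsProbabilityMeasure coin := by
  constructor
  simp [coin, ENNReal.inv_two_add_inv_two]

theorem mu_eq : mu = iid F2 coin := rfl

instance : IsProbabilityMeasure mu := by rw [mu_eq]; infer_instance

theorem act_one (x : Pt) : act 1 x = x := by funext h; simp [act]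

theorem act_mul (g h : F2) (x : Pt) : act (g * h) x = act g (act h x) := by
  funext k; simp [act, mul_assoc]

theorem mp_act (g : F2) : MeasurePreserving (act g) mu mu := by
  refine ⟨measurable_comp _, ?_⟩
  exact map_comp coin (fun h : F2 => g⁻¹ * h) (mul_right_injective _)

theorem measurable_flip (g : F2) : Measurable (flip g) := by
  refine measurable_pi_lambda _ fun h => ?_
  by_cases hh : h = g
  · subst hh
    have : (fun x : Pt => flip h x h) = fun x => !(x h) := by
      funext x; simp [flip]
    rw [this]
    exact (measurable_of_countable (fun b : Bool => !b)).comp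
      (measurable_pi_apply (X := fun _ : F2 => Bool) h)
  · have : (fun x : Pt => flip g x h) = fun x => x h := by
      funext x; simp [flip, hh]
    rw [this]
    exact measurable_pi_apply (X := fun _ : F2 => Bool) h

theorem coin_not : coin.map (fun b => !b) = coin := by
  unfold coin
  rw [Measure.map_smul, Measure.map_add _ _ (measurable_of_countable _),
    Measure.map_dirac' (measurable_of_countable _), Measure.map_dirac' (measurable_of_countable _)]
  simp [add_comm]

theorem mp_flip (g : F2) : MeasurePreserving (flip g) mu mu := by
  refine ⟨measurable_flip g, ?_⟩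
  unfold mu
  refine Measure.eq_infinitePi _ ?_
  intro s t ht
  classical
  have hm : MeasurableSet ((↑s : Set F2).pi t) :=
    MeasurableSet.pi s.countable_toSet fun i _ => ht i
  rw [Measure.map_apply (measurable_flip g) hm]
  have e : flip g ⁻¹' ((↑s : Set F2).pi t) =
      (↑s : Set F2).pi (fun i => if i = g then (fun b => !b) ⁻¹' (t i) else t i) := by
    ext x
    simp only [Set.mem_preimage, Set.mem_pi]
    refine forall₂_congr fun i _ => ?_
    by_cases hi : i = g
    · subst hi; simp [flip]
    · simp [flip, hi]
  rw [e, Measure.infinitePi_pi]
  · refine Finset.prod_congr rfl fun i _ => ?_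
    by_cases hi : i = g
    · simp only [hi, if_true]
      rw [← Measure.map_apply (measurable_of_countable _) (ht _), coin_not]
    · simp [hi]
  · intro i _
    by_cases hi : i = g
    · simp only [hi, if_true]
      exact (measurable_of_countable (fun b : Bool => !b)) (ht g)
    · simp only [hi, if_false]
      exact ht i

theorem act_flip (h g : F2) (x : Pt) : act h (flip g x) = flip (h * g) (act h x) := by
  funext k
  by_cases hk : k = h * g
  · subst hk; simp [act, flip]
  · have h2 : h⁻¹ * k ≠ g := by
      rintro rfl; simp at hk
    simp [act, flip, hk, h2]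

theorem flip_comm_ne {g h : F2} (x : Pt) (hne : h ≠ g) : flip g x h = x h := by
  simp [flip, hne]

/-- A set which is almost invariant under each single flip has measure zero or one. -/
theorem zero_one_flip {A : Set Pt} (hA : MeasurableSet A)
    (h : ∀ g : F2, ∀ᵐ x ∂mu, x ∈ A ↔ flip g x ∈ A) : mu A = 0 ∨ mu A = 1 := by
  classical
  -- flips on finite sets
  have hS : ∀ S : Finset F2, ∀ᵐ x ∂mu, x ∈ A ↔ (fun i => if i ∈ S then !x i else x i) ∈ A := by
    intro S
    induction S using Finset.induction_on with
    | empty => exact Filter.Eventually.of_forall fun x => by simp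
    | insert g S hg ih =>
      have h2 := (mp_flip g).quasiMeasurePreserving.ae ih
      filter_upwards [h g, h2] with x h3 h4
      rw [h3, h4]
      have : (fun i => if i ∈ S then !(flip g x) i else (flip g x) i) =
          fun i => if i ∈ insert g S then !x i else x i := by
        funext i
        by_cases hi : i = g
        · subst hi; simp [hg, flip]
        · simp [hi, flip]
      rw [this]
  have hall : ∀ᵐ x ∂mu, ∀ S : Finset F2, x ∈ A ↔ (fun i => if i ∈ S then !x i else x i) ∈ A :=
    ae_all_iff.2 hS
  refine zero_one_resample coin hA fun F => ?_
  have h1 : ∀ᵐ z ∂((iid F2 coin).prod (iid F2 coin)), ∀ S : Finset F2,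
      z.1 ∈ A ↔ (fun i => if i ∈ S then !z.1 i else z.1 i) ∈ A :=
    (measurePreserving_fst (μ := iid F2 coin) (ν := iid F2 coin)).quasiMeasurePreserving.ae hall
  filter_upwards [h1] with z hz
  rw [hz (F.filter fun i => z.1 i ≠ z.2 i)]
  have : (fun i => if i ∈ F.filter (fun i => z.1 i ≠ z.2 i) then !z.1 i else z.1 i) =
      resample F z := by
    funext i
    simp only [resample, Finset.mem_filter]
    by_cases hi : i ∈ F
    · simp only [hi, true_and, if_true]
      cases h1 : z.1 i <;> cases h2 : z.2 i <;> simp
    · simp [hi]
  rw [this]

end Pool.Agent.Helper260
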