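import Pool.Agent.Helper260_edgecol.Tree

set_option autoImplicit false

namespace Pool.Agent.Helper260

open MeasureTheory ProbabilityTheory Finset Pool.Agent.R987.Bern

/-- The action as a measurable equivalence. -/
def actEquiv (g : F2) : Pt ≃ᵐ Pt where
  toFun := act g
  invFun := act g⁻¹
  left_inv x := by rw [← act_mul]; simp [act_one]
  right_inv x := by rw [← act_mul]; simp [act_one]
  measurable_toFun := (mp_act g).measurable
  measurable_invFun := (mp_act g⁻¹).measurable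

theorem integral_act (g : F2) (F : Pt → ℝ) : ∫ x, F (act g x) ∂mu = ∫ x, F x ∂mu :=
  (mp_act g).integral_comp (actEquiv g).measurableEmbedding F

section

variable (K : Finset F2) (w : (K → Bool) → ℝ)

/-- A cylinder function, moved by `g`. -/
def cyl (g : F2) (x : Pt) : ℝ := w (fun k : K => x (g * k))

theorem cyl_act (g h : F2) (x : Pt) : cyl K w g (act h x) = cyl K w (h⁻¹ * g) x := by
  simp [cyl, act, mul_assoc]

theorem measurable_cyl (g : F2) : Measurable (cyl K w g) := by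
  have h1 : Measurable (fun x : Pt => fun k : K => x (g * k)) :=
    measurable_pi_lambda _ fun k => measurable_pi_apply (X := fun _ : F2 => Bool) _
  exact (measurable_of_countable w).comp h1

theorem exists_bound : ∃ C : ℝ, 0 < C ∧ ∀ z, |w z| ≤ C := by
  refine ⟨∑ z, |w z| + 1, by positivity, fun z => ?_⟩
  have : |w z| ≤ ∑ z, |w z| :=
    single_le_sum (f := fun z => |w z|) (fun z _ => abs_nonneg _) (mem_univ z)
  linarith

theorem integrable_cyl (g : F2) : Integrable (cyl K w g) mu := by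
  obtain ⟨C, _, hC⟩ := exists_bound K w
  exact Integrable.of_bound (measurable_cyl K w g).aestronglyMeasurable C
    (Filter.Eventually.of_forall fun x => hC _)

theorem integral_cyl (g : F2) : ∫ x, cyl K w g x ∂mu = ∫ x, cyl K w 1 x ∂mu := by
  rw [← integral_act g (cyl K w g)]
  simp only [cyl_act, inv_mul_cancel]

theorem orth (h0 : ∫ x, cyl K w 1 x ∂mu = 0) (g : F2) (hg : ∀ k ∈ K, g * k ∉ K) :
    ∫ x, cyl K w 1 x * cyl K w g x ∂mu = 0 := by
  have h1 := indep_coord coin K (fun k : K => g * (k : F2)) (fun k => hg k k.2) Finset.univ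
  have h2 := h1.comp (φ := w) (ψ := fun z : (↥(Finset.univ : Finset K) → Bool) =>
    w (fun k : K => z ⟨k, Finset.mem_univ k⟩)) (measurable_of_countable _)
      (measurable_of_countable _)
  have e1 : (w ∘ fun x : Pt => K.restrict x) = cyl K w 1 := by
    funext x; simp [cyl, Finset.restrict_def]
  have h3 : IndepFun (cyl K w 1) (cyl K w g) mu := by
    rw [← e1]
    exact h2
  have h4 := h3.integral_fun_mul_eq_mul_integral (integrable_cyl K w 1).aestronglyMeasurable
    (integrable_cyl K w g).aestronglyMeasurable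
  rw [h4, h0, zero_mul]

theorem orth2 (h0 : ∫ x, cyl K w 1 x ∂mu = 0) (g h : F2)
    (hg : ∀ k ∈ K, g⁻¹ * h * k ∉ K) :
    ∫ x, cyl K w g x * cyl K w h x ∂mu = 0 := by
  rw [← integral_act g (fun x => cyl K w g x * cyl K w h x)]
  simp only [cyl_act, inv_mul_cancel]
  exact orth K w h0 (g⁻¹ * h) hg

open Classical in
theorem card_rel (G : Finset F2) (g : F2) :
    (G.filter fun h => ∃ k ∈ K, g⁻¹ * h * k ∈ K).card ≤ K.card * K.card := by
  rw [← card_product]
  refine (card_le_card ?_).trans (card_image_le (s := K ×ˢ K)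
    (f := fun p : F2 × F2 => g * p.1 * p.2⁻¹))
  intro h hh
  obtain ⟨-, k, hk, hk'⟩ := mem_filter.1 hh
  exact mem_image.2 ⟨(g⁻¹ * h * k, k), mem_product.2 ⟨hk', hk⟩, by simp [mul_assoc]⟩

open Classical in
theorem card_rel' (G : Finset F2) (h : F2) :
    (G.filter fun g => ∃ k ∈ K, g⁻¹ * h * k ∈ K).card ≤ K.card * K.card := by
  rw [← card_product]
  refine (card_le_card ?_).trans (card_image_le (s := K ×ˢ K)
    (f := fun p : F2 × F2 => h * p.2 * p.1⁻¹))
  intro g hh
  obtain ⟨-, k, hk, hk'⟩ := mem_filter.1 hh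
  exact mem_image.2 ⟨(g⁻¹ * h * k, k), mem_product.2 ⟨hk', hk⟩, by simp [mul_assoc]⟩

/-- Bounded overlap estimate. -/
theorem overlap (h0 : ∫ x, cyl K w 1 x ∂mu = 0) (C : ℝ) (hC0 : 0 < C) (hC : ∀ z, |w z| ≤ C)
    (G : Finset F2) (φ : F2 → ℝ) :
    ∫ x, (∑ g ∈ G, φ g * cyl K w g x) ^ 2 ∂mu ≤
      C ^ 2 * (K.card * K.card) * ∑ g ∈ G, φ g ^ 2 := by
  classical
  have hint : ∀ g h, Integrable (fun x => φ g * cyl K w g x * (φ h * cyl K w h x)) mu := by
    intro g h
    refine Integrable.of_bound (((measurable_cyl K w g).const_mul _).mul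
      ((measurable_cyl K w h).const_mul _)).aestronglyMeasurable (|φ g| * C * (|φ h| * C))
        (Filter.Eventually.of_forall fun x => ?_)
    rw [Real.norm_eq_abs, abs_mul, abs_mul, abs_mul]
    have a1 : |cyl K w g x| ≤ C := hC _
    have a2 : |cyl K w h x| ≤ C := hC _
    gcongr
  have e1 : ∀ x, (∑ g ∈ G, φ g * cyl K w g x) ^ 2 =
      ∑ g ∈ G, ∑ h ∈ G, φ g * cyl K w g x * (φ h * cyl K w h x) := by
    intro x
    rw [sq, sum_mul_sum]
  simp only [e1]
  rw [integral_finsetSum _ fun g _ => integrable_finsetSum _ fun h _ => hint g h]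
  have e2 : ∀ g ∈ G, ∫ x, ∑ h ∈ G, φ g * cyl K w g x * (φ h * cyl K w h x) ∂mu =
      ∑ h ∈ G, ∫ x, φ g * cyl K w g x * (φ h * cyl K w h x) ∂mu := fun g _ =>
    integral_finsetSum _ fun h _ => hint g h
  rw [sum_congr rfl e2]
  have e3 : ∀ g h, ∫ x, φ g * cyl K w g x * (φ h * cyl K w h x) ∂mu ≤
      if ∃ k ∈ K, g⁻¹ * h * k ∈ K then C ^ 2 / 2 * (φ g ^ 2 + φ h ^ 2) else 0 := by
    intro g h
    by_cases hr : ∃ k ∈ K, g⁻¹ * h * k ∈ K
    · rw [if_pos hr]
      have hb : ∀ x, φ g * cyl K w g x * (φ h * cyl K w h x) ≤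
          C ^ 2 / 2 * (φ g ^ 2 + φ h ^ 2) := by
        intro x
        have a1 : |cyl K w g x| ≤ C := hC _
        have a2 : |cyl K w h x| ≤ C := hC _
        have a3 : cyl K w g x ^ 2 ≤ C ^ 2 := sq_le_sq' (abs_le.1 a1).1 (abs_le.1 a1).2
        have a4 : cyl K w h x ^ 2 ≤ C ^ 2 := sq_le_sq' (abs_le.1 a2).1 (abs_le.1 a2).2
        have a5 : φ g ^ 2 * cyl K w g x ^ 2 ≤ φ g ^ 2 * C ^ 2 :=
          mul_le_mul_of_nonneg_left a3 (sq_nonneg _)
        have a6 : φ h ^ 2 * cyl K w h x ^ 2 ≤ φ h ^ 2 * C ^ 2 :=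
          mul_le_mul_of_nonneg_left a4 (sq_nonneg _)
        nlinarith [sq_nonneg (φ g * cyl K w g x - φ h * cyl K w h x)]
      calc ∫ x, φ g * cyl K w g x * (φ h * cyl K w h x) ∂mu
          ≤ ∫ _x, C ^ 2 / 2 * (φ g ^ 2 + φ h ^ 2) ∂mu :=
            integral_mono (hint g h) (integrable_const _) hb
        _ = _ := by simp
    · rw [if_neg hr]
      push Not at hr
      have : ∫ x, φ g * cyl K w g x * (φ h * cyl K w h x) ∂mu =
          φ g * φ h * ∫ x, cyl K w g x * cyl K w h x ∂mu := by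
        rw [← integral_const_mul]
        congr 1
        funext x
        ring
      rw [this, orth2 K w h0 g h hr, mul_zero]
  calc ∑ g ∈ G, ∑ h ∈ G, ∫ x, φ g * cyl K w g x * (φ h * cyl K w h x) ∂mu
      ≤ ∑ g ∈ G, ∑ h ∈ G,
        (if ∃ k ∈ K, g⁻¹ * h * k ∈ K then C ^ 2 / 2 * (φ g ^ 2 + φ h ^ 2) else 0) :=
        sum_le_sum fun g _ => sum_le_sum fun h _ => e3 g h
    _ = ∑ g ∈ G, ∑ h ∈ G, (if ∃ k ∈ K, g⁻¹ * h * k ∈ K then C ^ 2 / 2 * φ g ^ 2 else 0) +
        ∑ g ∈ G, ∑ h ∈ G, (if ∃ k ∈ K, g⁻¹ * h * k ∈ K then C ^ 2 / 2 * φ h ^ 2 else 0) := by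
        rw [← sum_add_distrib]
        refine sum_congr rfl fun g _ => ?_
        rw [← sum_add_distrib]
        refine sum_congr rfl fun h _ => ?_
        split_ifs
        · ring
        · simp
    _ ≤ C ^ 2 / 2 * (K.card * K.card) * ∑ g ∈ G, φ g ^ 2 +
        C ^ 2 / 2 * (K.card * K.card) * ∑ h ∈ G, φ h ^ 2 := by
        have s1 : ∑ g ∈ G, ∑ h ∈ G,
            (if ∃ k ∈ K, g⁻¹ * h * k ∈ K then C ^ 2 / 2 * φ g ^ 2 else 0) ≤
            C ^ 2 / 2 * (K.card * K.card) * ∑ g ∈ G, φ g ^ 2 := by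
          rw [mul_sum]
          refine sum_le_sum fun g _ => ?_
          rw [← sum_filter, sum_const, nsmul_eq_mul]
          have := card_rel K G g
          have h2 : ((G.filter fun h => ∃ k ∈ K, g⁻¹ * h * k ∈ K).card : ℝ) ≤
              (K.card * K.card : ℝ) := by exact_mod_cast this
          have h3 : 0 ≤ C ^ 2 / 2 * φ g ^ 2 := by positivity
          calc _ ≤ (K.card * K.card : ℝ) * (C ^ 2 / 2 * φ g ^ 2) :=
                mul_le_mul_of_nonneg_right h2 h3
            _ = _ := by ring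
        have s2 : ∑ g ∈ G, ∑ h ∈ G,
            (if ∃ k ∈ K, g⁻¹ * h * k ∈ K then C ^ 2 / 2 * φ h ^ 2 else 0) ≤
            C ^ 2 / 2 * (K.card * K.card) * ∑ h ∈ G, φ h ^ 2 := by
          rw [sum_comm, mul_sum]
          refine sum_le_sum fun h _ => ?_
          rw [← sum_filter, sum_const, nsmul_eq_mul]
          have := card_rel' K G h
          have h2 : ((G.filter fun g => ∃ k ∈ K, g⁻¹ * h * k ∈ K).card : ℝ) ≤
              (K.card * K.card : ℝ) := by exact_mod_cast this
          have h3 : 0 ≤ C ^ 2 / 2 * φ h ^ 2 := by positivity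
          calc _ ≤ (K.card * K.card : ℝ) * (C ^ 2 / 2 * φ h ^ 2) :=
                mul_le_mul_of_nonneg_right h2 h3
            _ = _ := by ring
        exact add_le_add s1 s2
    _ = _ := by ring

/-- Coefficients of a square integrable function along the translates of a centred cylinder
function are square summable. -/
theorem bessel (h0 : ∫ x, cyl K w 1 x ∂mu = 0) {f : Pt → ℝ} (hf : MemLp f 2 mu) :
    Summable fun g : F2 => (∫ x, cyl K w 1 x * f (act g x) ∂mu) ^ 2 := by
  obtain ⟨C, hC0, hC⟩ := exists_bound K w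
  set φ : F2 → ℝ := fun g => ∫ x, cyl K w 1 x * f (act g x) ∂mu with hφ
  have hφ2 : ∀ g, φ g = ∫ x, cyl K w g x * f x ∂mu := by
    intro g
    rw [hφ, ← integral_act g (fun x => cyl K w g x * f x)]
    simp only [cyl_act, inv_mul_cancel]
  have hfi : Integrable f mu := hf.integrable (by norm_num)
  have hf2 : Integrable (fun x => f x ^ 2) mu := hf.integrable_sq
  set M : ℝ := C ^ 2 * (K.card * K.card) + 1 with hM
  have hM0 : 0 < M := by positivity
  refine summable_of_sum_le (c := M * ∫ x, f x ^ 2 ∂mu) (fun g => sq_nonneg _) fun G => ?_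
  have hcf : ∀ g, Integrable (fun x => cyl K w g x * f x) mu := by
    intro g
    refine Integrable.bdd_mul (c := C) hfi (measurable_cyl K w g).aestronglyMeasurable
      (Filter.Eventually.of_forall fun x => hC _)
  have e1 : ∑ g ∈ G, φ g ^ 2 = ∫ x, (∑ g ∈ G, φ g * cyl K w g x) * f x ∂mu := by
    have : ∀ x, (∑ g ∈ G, φ g * cyl K w g x) * f x =
        ∑ g ∈ G, φ g * (cyl K w g x * f x) := by
      intro x
      rw [sum_mul]
      exact sum_congr rfl fun g _ => by ring
    simp only [this]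
    rw [integral_finsetSum _ fun g _ => (hcf g).const_mul _]
    refine sum_congr rfl fun g _ => ?_
    rw [integral_const_mul, ← hφ2 g, sq]
  have hu : Measurable fun x => ∑ g ∈ G, φ g * cyl K w g x :=
    Finset.measurable_sum G fun g _ => (measurable_cyl K w g).const_mul _
  have hub : ∀ x, |∑ g ∈ G, φ g * cyl K w g x| ≤ ∑ g ∈ G, |φ g| * C := by
    intro x
    refine (abs_sum_le_sum_abs _ _).trans (sum_le_sum fun g _ => ?_)
    rw [abs_mul]
    exact mul_le_mul_of_nonneg_left (hC _) (abs_nonneg _)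
  have hu2 : Integrable (fun x => (∑ g ∈ G, φ g * cyl K w g x) ^ 2) mu := by
    refine Integrable.of_bound (hu.pow_const 2).aestronglyMeasurable ((∑ g ∈ G, |φ g| * C) ^ 2)
      (Filter.Eventually.of_forall fun x => ?_)
    rw [Real.norm_eq_abs, abs_pow]
    exact pow_le_pow_left₀ (abs_nonneg _) (hub x) 2
  have huf : Integrable (fun x => (∑ g ∈ G, φ g * cyl K w g x) * f x) mu :=
    Integrable.bdd_mul hfi hu.aestronglyMeasurable (Filter.Eventually.of_forall fun x => hub x)
  have e2 : 2 * ∫ x, (∑ g ∈ G, φ g * cyl K w g x) * f x ∂mu ≤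
      (1 / M) * ∫ x, (∑ g ∈ G, φ g * cyl K w g x) ^ 2 ∂mu + M * ∫ x, f x ^ 2 ∂mu := by
    rw [← integral_const_mul, ← integral_const_mul, ← integral_const_mul,
      ← integral_add (hu2.const_mul _) (hf2.const_mul _)]
    refine integral_mono (huf.const_mul _) ((hu2.const_mul _).add (hf2.const_mul _)) fun x => ?_
    simp only
    set u := ∑ g ∈ G, φ g * cyl K w g x
    have h1 : 0 ≤ (1 / M) * (u - M * f x) ^ 2 := by positivity
    have h2 : (1 / M) * (u - M * f x) ^ 2 = (1 / M) * u ^ 2 + M * f x ^ 2 - 2 * (u * f x) := by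
      field_simp
      ring
    linarith
  have e3 := overlap K w h0 C hC0 hC G φ
  have S0 : 0 ≤ ∑ g ∈ G, φ g ^ 2 := sum_nonneg fun g _ => sq_nonneg _
  have e4 : (1 / M) * ∫ x, (∑ g ∈ G, φ g * cyl K w g x) ^ 2 ∂mu ≤ ∑ g ∈ G, φ g ^ 2 := by
    rw [one_div, inv_mul_le_iff₀ hM0]
    refine e3.trans ?_
    refine mul_le_mul_of_nonneg_right ?_ S0
    rw [hM]; linarith
  rw [← e1] at e2
  linarith

end

end Pool.Agent.Helper260
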