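import Pool.Agent.R987.Bern2

/-!
# The Schreier graph of the Bernoulli shift of the free group of rank two: definitions
-/

set_option autoImplicit false

namespace Pool.Agent.Helper260

open MeasureTheory

/-- The free group on `a = of 0` and `b = of 1`. -/
abbrev F2 : Type := FreeGroup (Fin 2)

/-- The space `2^F_2`, with the product topology. -/
abbrev Pt : Type := F2 → Bool

/-- The left shift `(g · x)(h) = x(g⁻¹ h)`. -/
def act (g : F2) (x : Pt) : Pt := fun h => x (g⁻¹ * h)

/-- The free part of the action. -/
def FreePart : Set Pt := {x | ∀ g : F2, g ≠ 1 → act g x ≠ x}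

/-- The uniform measure on `{0, 1}`. -/
noncomputable def coin : Measure Bool :=
  (2⁻¹ : ENNReal) • (Measure.dirac true + Measure.dirac false)

/-- The coin flip measure. -/
noncomputable def mu : Measure Pt := Measure.infinitePi fun _ => coin

/-- The letters `a, a⁻¹, b, b⁻¹` of the free group: `(γ, true)` stands for the generator `γ` and
`(γ, false)` for its inverse. -/
abbrev Letter : Type := Fin 2 × Bool

/-- The group element of a letter. -/
def Letter.val (s : Letter) : F2 := FreeGroup.mk [s]

/-- The colour of the edge joining `x` and `s · x`, when `c γ x` is the colour of the edge joining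
`x` and `γ · x` for the generators `γ`. -/
def edgeColour {k : ℕ} (c : Fin 2 → Pt → Fin k) (s : Letter) (x : Pt) : Fin k :=
  if s.2 then c s.1 x else c s.1 (act (FreeGroup.of s.1)⁻¹ x)

/-- `Y` is an invariant conull Borel subset of the free part and `c` is a Borel proper edge
colouring with `k` colours of the Schreier graph restricted to `Y`, where `c γ x` is the colour of
the edge `{x, γ · x}`. -/
structure IsMeasColouring (k : ℕ) (Y : Set Pt) (c : Fin 2 → Pt → Fin k) : Prop where
  isBorel : MeasurableSet[borel Pt] Y
  free : Y ⊆ FreePart
  inv : ∀ (g : F2) (x : Pt), x ∈ Y ↔ act g x ∈ Y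
  conull : mu Y = 1
  meas : ∀ (γ : Fin 2) (i : Fin k), MeasurableSet[borel Pt] {x | x ∈ Y ∧ c γ x = i}
  proper : ∀ x ∈ Y, Function.Injective fun s : Letter => edgeColour c s x

/-- Change the coordinate `g` of `x`. -/
def flip (g : F2) (x : Pt) : Pt := Function.update x g (!x g)

end Pool.Agent.Helper260
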