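import Pool.Agent.Helper260_edgecol.Bessel

set_option autoImplicit false

namespace Pool.Agent.Helper260

open MeasureTheory ProbabilityTheory Finset Pool.Agent.R987.Bern

/-- A function which is orthogonal to all cylinder functions vanishes. -/
theorem ae_zero_of_cyl {f : Pt → ℝ} (hf : Integrable f mu)
    (h : ∀ (K : Finset F2) (w : (K → Bool) → ℝ), ∫ x, cyl K w 1 x * f x ∂mu = 0) :
    f =ᵐ[mu] 0 := by
  have key : ∀ B : Set Pt, MeasurableSet B → ∫ x in B, f x ∂mu = 0 := by
    intro B hB
    have huniv : ∫ x, f x ∂mu = 0 := by
      have := h ∅ (fun _ => 1)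
      simpa [cyl] using this
    induction B, hB using MeasurableSpace.induction_on_inter
      (generateFrom_measurableCylinders (α := fun _ : F2 => Bool)).symm
      (isPiSystem_measurableCylinders (α := fun _ : F2 => Bool)) with
    | empty => simp
    | basic t ht =>
      obtain ⟨K, S, hS, rfl⟩ := (mem_measurableCylinders t).1 ht
      classical
      have h1 := h K (fun z => if z ∈ S then 1 else 0)
      have hm : MeasurableSet (cylinder K S) :=
        (Finset.measurable_restrict (X := fun _ : F2 => Bool) K) hS
      rw [← integral_indicator hm]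
      rw [← h1]
      congr 1
      funext x
      by_cases hx : x ∈ cylinder K S
      · rw [Set.indicator_of_mem hx]
        have : (fun k : K => x (1 * (k : F2))) ∈ S := by
          rw [mem_cylinder] at hx
          simpa [Finset.restrict_def] using hx
        change f x = (if (fun k : K => x (1 * (k : F2))) ∈ S then (1 : ℝ) else 0) * f x
        rw [if_pos this, one_mul]
      · rw [Set.indicator_of_notMem hx]
        have : (fun k : K => x (1 * (k : F2))) ∉ S := by
          rw [mem_cylinder] at hx
          simpa [Finset.restrict_def] using hx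
        change 0 = (if (fun k : K => x (1 * (k : F2))) ∈ S then (1 : ℝ) else 0) * f x
        rw [if_neg this, zero_mul]
    | compl t ht ih =>
      rw [setIntegral_compl ht hf, ih, huniv, sub_zero]
    | iUnion t hd ht ih =>
      rw [integral_iUnion ht hd hf.integrableOn]
      simp [ih]
  exact hf.ae_eq_zero_of_forall_setIntegral_eq_zero fun s hs _ => key s hs

/-- The adjacency operator of the Schreier graph has no square integrable eigenfunction besides
the constants. -/
theorem eigen_const {f : Pt → ℝ} (hf : MemLp f 2 mu) (lam : ℝ)
    (he : ∀ᵐ x ∂mu, ∑ s : Letter, f (act (Letter.val s) x) = lam * f x) :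
    ∃ z : ℝ, ∀ᵐ x ∂mu, f x = z := by
  set m : ℝ := ∫ x, f x ∂mu with hm
  have hfi : Integrable f mu := hf.integrable (by norm_num)
  have hfs : ∀ g : F2, Integrable (fun x => f (act g x)) mu := fun g =>
    (mp_act g).integrable_comp_of_integrable hfi
  have h4 : 4 * m = lam * m := by
    have h1 : ∫ x, ∑ s : Letter, f (act (Letter.val s) x) ∂mu = ∫ x, lam * f x ∂mu :=
      integral_congr_ae he
    rw [integral_finsetSum _ fun s _ => hfs _, integral_const_mul] at h1
    rw [sum_congr rfl fun s _ => integral_act (Letter.val s) f] at h1
    rw [sum_const, ← hm] at h1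
    have hc : (univ : Finset Letter).card = 4 := rfl
    rw [hc, nsmul_eq_mul] at h1
    exact_mod_cast h1
  set f0 : Pt → ℝ := fun x => f x - m with hf0
  have hf02 : MemLp f0 2 mu := hf.sub (memLp_const m)
  have hf0i : Integrable f0 mu := hf02.integrable (by norm_num)
  have hz : ∫ x, f0 x ∂mu = 0 := by
    rw [hf0, integral_sub hfi (integrable_const _)]
    simp [hm]
  have he0 : ∀ᵐ x ∂mu, ∑ s : Letter, f0 (act (Letter.val s) x) = lam * f0 x := by
    filter_upwards [he] with x hx
    simp only [hf0]
    rw [sum_sub_distrib, hx, sum_const]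
    simp
    linarith
  have hcyl : ∀ (K : Finset F2) (w : (K → Bool) → ℝ), ∫ x, cyl K w 1 x ∂mu = 0 →
      ∫ x, cyl K w 1 x * f0 x ∂mu = 0 := by
    intro K w hw
    obtain ⟨C, hC0, hC⟩ := exists_bound K w
    have hs := bessel K w hw hf02
    have hcf : ∀ g, Integrable (fun x => cyl K w 1 x * f0 (act g x)) mu := by
      intro g
      exact Integrable.bdd_mul (c := C) ((mp_act g).integrable_comp_of_integrable hf0i)
        (measurable_cyl K w 1).aestronglyMeasurable (Filter.Eventually.of_forall fun x => hC _)
    have h1 := no_l2 _ hs lam fun g => by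
      rw [← integral_finsetSum _ fun s _ => hcf _, ← integral_const_mul]
      refine integral_congr_ae ?_
      have h2 := (mp_act g).quasiMeasurePreserving.ae he0
      filter_upwards [h2] with x hx
      simp only [act_mul]
      rw [← mul_sum, hx]
      ring
    simpa [act_one] using h1
  have hzero : f0 =ᵐ[mu] 0 := by
    refine ae_zero_of_cyl hf0i fun K w => ?_
    set e : ℝ := ∫ x, cyl K w 1 x ∂mu with he'
    have h1 := hcyl K (fun z => w z - e) (by
      have : (cyl K (fun z => w z - e) 1) = fun x => cyl K w 1 x - e := by
        funext x; simp [cyl]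
      rw [this, integral_sub (integrable_cyl K w 1) (integrable_const _)]
      simp [he'])
    obtain ⟨C, hC0, hC⟩ := exists_bound K w
    have h2 : ∀ x, cyl K (fun z => w z - e) 1 x * f0 x = cyl K w 1 x * f0 x - e * f0 x := by
      intro x; simp only [cyl]; ring
    simp only [h2] at h1
    rw [integral_sub (Integrable.bdd_mul (c := C) hf0i
      (measurable_cyl K w 1).aestronglyMeasurable (Filter.Eventually.of_forall fun x => hC _))
      (hf0i.const_mul _), integral_const_mul, hz] at h1
    linarith
  refine ⟨m, ?_⟩
  filter_upwards [hzero] with x hx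
  have : f x - m = 0 := hx
  linarith

end Pool.Agent.Helper260
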