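import Pool.Agent.Helper260_edgecol.Base

set_option autoImplicit false

namespace Pool.Agent.Helper260

open MeasureTheory Pool.Agent.R987.Bern

theorem val_inv (s : Letter) : Letter.val (s.1, !s.2) = (Letter.val s)⁻¹ := by
  simp [Letter.val, FreeGroup.inv_mk, FreeGroup.invRev]

theorem val_false (γ : Fin 2) : Letter.val (γ, false) = (FreeGroup.of γ)⁻¹ :=
  val_inv (γ, true)

theorem val_true (γ : Fin 2) : Letter.val (γ, true) = FreeGroup.of γ := rfl

theorem edgeColour_symm {k : ℕ} (c : Fin 2 → Pt → Fin k) (s : Letter) (x : Pt) :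
    edgeColour c (s.1, !s.2) (act (Letter.val s) x) = edgeColour c s x := by
  obtain ⟨γ, b⟩ := s
  cases b
  · simp [edgeColour, val_false]
  · simp only [edgeColour, val_true, Bool.not_true, if_true, ← act_mul]
    simp [act_one]

theorem norm_letter_mul (s : Letter) (h : F2)
    (hne : ∀ hd tl, h.toWord = hd :: tl → s ≠ (hd.1, !hd.2)) :
    (Letter.val s * h).norm = h.norm + 1 := by
  have e1 : Letter.val s * h = FreeGroup.mk (s :: h.toWord) := by
    conv_lhs => rw [← FreeGroup.mk_toWord (x := h)]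
    simp [Letter.val]
  rw [e1]
  unfold FreeGroup.norm
  rw [FreeGroup.toWord_mk, FreeGroup.reduce.cons, FreeGroup.reduce_toWord]
  cases hw : h.toWord with
  | nil => simp
  | cons hd tl =>
    have h1 := hne hd tl hw
    have h2 : ¬ (s.1 = hd.1 ∧ s.2 = !hd.2) := fun h3 => h1 (Prod.ext h3.1 h3.2)
    simp [h2]

theorem norm_or (s t : Letter) (hst : s ≠ t) (h : F2) :
    (Letter.val s * h).norm = h.norm + 1 ∨ (Letter.val t * h).norm = h.norm + 1 := by
  by_cases hs : ∀ hd tl, h.toWord = hd :: tl → s ≠ (hd.1, !hd.2)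
  · exact Or.inl (norm_letter_mul s h hs)
  · right
    push Not at hs
    obtain ⟨hd, tl, hw, rfl⟩ := hs
    refine norm_letter_mul t h fun hd' tl' hw' => ?_
    rw [hw] at hw'
    obtain ⟨rfl, rfl⟩ := List.cons.inj hw'
    exact hst.symm

section

variable {Y : Set Pt} {c : Fin 2 → Pt → Fin 4}

theorem bij (hc : IsMeasColouring 4 Y c) {x : Pt} (hx : x ∈ Y) :
    Function.Bijective fun s : Letter => edgeColour c s x :=
  (Fintype.bijective_iff_injective_and_card _).2 ⟨hc.proper x hx, by simp⟩

/-- The edges of colour `i` at the vertex `h` differ for the two points. -/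
def Touched (c : Fin 2 → Pt → Fin 4) (i : Fin 4) (x x' : Pt) (h : F2) : Prop :=
  ∃ s : Letter, ¬ (edgeColour c s (act h x) = i ↔ edgeColour c s (act h x') = i)

theorem extend (hc : IsMeasColouring 4 Y c) (i : Fin 4) {x x' : Pt} (hx : x ∈ Y) (hx' : x' ∈ Y)
    {h : F2} (ht : Touched c i x x' h) :
    ∃ s : Letter, Touched c i x x' (Letter.val s * h) ∧
      (Letter.val s * h).norm = h.norm + 1 := by
  have hy := bij hc ((hc.inv h x).1 hx)
  have hy' := bij hc ((hc.inv h x').1 hx')
  obtain ⟨s, hs⟩ := hy.2 i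
  obtain ⟨t, ht'⟩ := hy'.2 i
  have hst : s ≠ t := by
    rintro rfl
    obtain ⟨r, hr⟩ := ht
    apply hr
    constructor
    · intro h1
      have : r = s := hy.1 (h1.trans hs.symm)
      rw [this]; exact ht'
    · intro h1
      have : r = s := hy'.1 (h1.trans ht'.symm)
      rw [this]; exact hs
  have ts : Touched c i x x' (Letter.val s * h) := by
    refine ⟨(s.1, !s.2), ?_⟩
    rw [act_mul, act_mul, edgeColour_symm, edgeColour_symm]
    intro h1
    exact hst (hy'.1 ((h1.1 hs).trans ht'.symm))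
  have tt : Touched c i x x' (Letter.val t * h) := by
    refine ⟨(t.1, !t.2), ?_⟩
    rw [act_mul, act_mul, edgeColour_symm, edgeColour_symm]
    intro h1
    exact hst (hy.1 (hs.trans (h1.2 ht').symm))
  rcases norm_or s t hst h with h1 | h1
  · exact ⟨s, ts, h1⟩
  · exact ⟨t, tt, h1⟩

theorem extend_to (hc : IsMeasColouring 4 Y c) (i : Fin 4) {x x' : Pt} (hx : x ∈ Y) (hx' : x' ∈ Y)
    {h : F2} (ht : Touched c i x x' h) (n : ℕ) :
    ∃ h' : F2, Touched c i x x' h' ∧ h'.norm = h.norm + n := by
  induction n with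
  | zero => exact ⟨h, ht, rfl⟩
  | succ n ih =>
    obtain ⟨h1, ht1, hn1⟩ := ih
    obtain ⟨s, ht2, hn2⟩ := extend hc i hx hx' ht1
    exact ⟨_, ht2, by omega⟩

theorem ae_mem (hc : IsMeasColouring 4 Y c) : ∀ᵐ x ∂mu, x ∈ Y := by
  have hm : MeasurableSet Y := by
    have := hc.isBorel
    rwa [← borel_eq] at this
  have := hc.conull
  rwa [← prob_compl_eq_zero_iff hm] at this

theorem measurable_colour (hc : IsMeasColouring 4 Y c) (s : Letter) (i : Fin 4) :
    MeasurableSet {x | x ∈ Y ∧ edgeColour c s x = i} := by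
  obtain ⟨γ, b⟩ := s
  have h0 := hc.meas γ i
  rw [← borel_eq] at h0
  cases b
  · have : {x | x ∈ Y ∧ edgeColour c (γ, false) x = i} =
        act (FreeGroup.of γ)⁻¹ ⁻¹' {x | x ∈ Y ∧ c γ x = i} := by
      ext x
      simp only [edgeColour, Set.mem_ofPred_eq, Set.mem_preimage]
      rw [← hc.inv]
      simp
    rw [this]
    exact (mp_act _).measurable h0
  · exact h0

/-- The set of points at which the edge of colour `i` changes when the coordinate `g` is
changed. -/
def changed (c : Fin 2 → Pt → Fin 4) (i : Fin 4) (g : F2) : Set Pt :=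
  {x | ∃ s : Letter, ¬ (edgeColour c s x = i ↔ edgeColour c s (flip g x) = i)}

theorem nullMeasurable_changed (hc : IsMeasColouring 4 Y c) (i : Fin 4) (g : F2) :
    NullMeasurableSet (changed c i g) mu := by
  have hY : MeasurableSet Y := by
    have := hc.isBorel
    rwa [← borel_eq] at this
  have hfY : MeasurableSet (flip g ⁻¹' Y) := measurable_flip g hY
  have h1 : MeasurableSet (⋃ s : Letter,
      (({x | x ∈ Y ∧ edgeColour c s x = i} \ flip g ⁻¹' {x | x ∈ Y ∧ edgeColour c s x = i}) ∪
      (flip g ⁻¹' {x | x ∈ Y ∧ edgeColour c s x = i} \ {x | x ∈ Y ∧ edgeColour c s x = i}))) := by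
    refine MeasurableSet.iUnion fun s => ?_
    have a1 := measurable_colour hc s i
    have a2 := measurable_flip g a1
    exact (a1.diff a2).union (a2.diff a1)
  refine (h1.nullMeasurableSet (μ := mu)).congr ?_
  have hY1 := ae_mem hc
  have hY2 := (mp_flip g).quasiMeasurePreserving.ae hY1
  filter_upwards [hY1, hY2] with x hx hx2
  apply propext
  change x ∈ (⋃ s : Letter, _) ↔ x ∈ changed c i g
  simp only [changed, Set.mem_iUnion, Set.mem_union, Set.mem_sdiff, Set.mem_ofPred_eq,
    Set.mem_preimage]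
  refine exists_congr fun s => ?_
  simp only [hx, hx2, true_and]
  tauto

theorem touched_iff (i : Fin 4) (x : Pt) (h : F2) :
    Touched c i x (flip 1 x) h ↔ act h x ∈ changed c i h := by
  unfold Touched changed
  simp only [act_flip, mul_one, Set.mem_ofPred_eq]

/-- Some colour class changes with positive probability. -/
theorem pos (hc : IsMeasColouring 4 Y c) (i : Fin 4) : ∃ g : F2, mu (changed c i g) ≠ 0 := by
  by_contra hcon
  push Not at hcon
  have hY1 := ae_mem hc
  -- each of the sets is trivial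
  have key : ∀ s : Letter, mu {x | x ∈ Y ∧ edgeColour c s x = i} = 0 ∨
      mu {x | x ∈ Y ∧ edgeColour c s x = i} = 1 := by
    intro s
    refine zero_one_flip (measurable_colour hc s i) fun g => ?_
    have h1 : ∀ᵐ x ∂mu, x ∉ changed c i g := by
      rw [ae_iff]; simpa using hcon g
    have hY2 := (mp_flip g).quasiMeasurePreserving.ae hY1
    filter_upwards [h1, hY1, hY2] with x h2 h3 h4
    simp only [changed, Set.mem_ofPred_eq, not_exists, not_not] at h2
    simp only [h3, h4, true_and]
    exact h2 s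
  -- one of them has measure one
  have hex : ∃ s : Letter, mu {x | x ∈ Y ∧ edgeColour c s x = i} = 1 := by
    by_contra hno
    push Not at hno
    have h0 : ∀ s : Letter, mu {x | x ∈ Y ∧ edgeColour c s x = i} = 0 := fun s =>
      (key s).resolve_right (hno s)
    have h1 : mu (⋃ s : Letter, {x | x ∈ Y ∧ edgeColour c s x = i}) = 0 :=
      measure_iUnion_null h0
    have h2 : Y ⊆ ⋃ s : Letter, {x | x ∈ Y ∧ edgeColour c s x = i} := by
      intro x hx
      obtain ⟨s, hs⟩ := (bij hc hx).2 i
      exact Set.mem_iUnion.2 ⟨s, hx, hs⟩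
    have h3 := measure_mono_null h2 h1
    rw [hc.conull] at h3
    exact one_ne_zero h3
  obtain ⟨s, hs⟩ := hex
  have h1 : ∀ᵐ x ∂mu, x ∈ {x | x ∈ Y ∧ edgeColour c s x = i} := by
    rwa [← prob_compl_eq_zero_iff (measurable_colour hc s i)] at hs
  have h2 := (mp_act (Letter.val s)).quasiMeasurePreserving.ae h1
  obtain ⟨x, hx1, hx2⟩ := (h1.and h2).exists
  have h3 : edgeColour c (s.1, !s.2) (act (Letter.val s) x) = i := by
    rw [edgeColour_symm]; exact hx1.2
  have h4 := (bij hc hx2.1).1 (h3.trans hx2.2.symm)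
  have h5 := congrArg Prod.snd h4
  simp at h5

/-- The lower bound for the influence of a sphere. -/
theorem sphere_bound (hc : IsMeasColouring 4 Y c) (i : Fin 4) :
    ∃ κ : ENNReal, 0 < κ ∧ ∃ r₀ : ℕ, ∀ r ≥ r₀,
      κ ≤ ∑' g : {g : F2 // g.norm = r}, mu (changed c i g) := by
  obtain ⟨g₀, hg₀⟩ := pos hc i
  refine ⟨mu (changed c i g₀), pos_iff_ne_zero.2 hg₀, g₀.norm, fun r hr => ?_⟩
  have hmeas : ∀ g : F2, mu (act g ⁻¹' changed c i g) = mu (changed c i g) := fun g =>
    (mp_act g).measure_preimage (nullMeasurable_changed hc i g)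
  have hY1 := ae_mem hc
  have hY2 := (mp_flip 1).quasiMeasurePreserving.ae hY1
  calc mu (changed c i g₀) = mu (act g₀ ⁻¹' changed c i g₀) := (hmeas g₀).symm
    _ ≤ mu (⋃ g : {g : F2 // g.norm = r}, act g ⁻¹' changed c i g) := by
        refine measure_mono_ae ?_
        filter_upwards [hY1, hY2] with x hx hx2 h1
        have h2 : Touched c i x (flip 1 x) g₀ := (touched_iff i x g₀).2 h1
        obtain ⟨h', ht', hn'⟩ := extend_to hc i hx hx2 h2 (r - g₀.norm)
        have h3 : act h' x ∈ changed c i h' := (touched_iff i x h').1 ht'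
        exact Set.mem_iUnion.2 ⟨⟨h', by omega⟩, h3⟩
    _ ≤ ∑' g : {g : F2 // g.norm = r}, mu (act g ⁻¹' changed c i g) := measure_iUnion_le _
    _ = ∑' g : {g : F2 // g.norm = r}, mu (changed c i g) := by
        simp only [hmeas]

end

end Pool.Agent.Helper260
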