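import Pool.Agent.Helper260_edgecol.Sphere

set_option autoImplicit false

namespace Pool.Agent.Helper260

open Finset Filter Topology

theorem finite_sphere (n : ℕ) : {g : F2 | g.norm = n}.Finite := by
  refine Set.Finite.of_finite_image (f := FreeGroup.toWord) ?_ FreeGroup.toWord_injective.injOn
  refine (List.finite_length_eq Letter n).subset ?_
  rintro _ ⟨g, hg, rfl⟩
  exact hg

noncomputable def sph (n : ℕ) : Finset F2 := (finite_sphere n).toFinset

theorem mem_sph {n : ℕ} {g : F2} : g ∈ sph n ↔ g.norm = n := by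
  simp [sph]

theorem norm_letter_cases (s : Letter) (h : F2) :
    (Letter.val s * h).norm = h.norm + 1 ∨ (Letter.val s * h).norm + 1 = h.norm := by
  by_cases hs : ∀ hd tl, h.toWord = hd :: tl → s ≠ (hd.1, !hd.2)
  · exact Or.inl (norm_letter_mul s h hs)
  · right
    push Not at hs
    obtain ⟨hd, tl, hw, rfl⟩ := hs
    have e1 : Letter.val (hd.1, !hd.2) * h = FreeGroup.mk ((hd.1, !hd.2) :: h.toWord) := by
      conv_lhs => rw [← FreeGroup.mk_toWord (x := h)]
      simp [Letter.val]
    rw [e1]
    unfold FreeGroup.norm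
    rw [FreeGroup.toWord_mk, FreeGroup.reduce.cons, FreeGroup.reduce_toWord, hw]
    simp

/-- The number of letters shortening `h`. -/
theorem card_down (h : F2) :
    (univ.filter fun s : Letter => (Letter.val s * h).norm + 1 = h.norm).card =
      if h = 1 then 0 else 1 := by
  by_cases h1 : h = 1
  · subst h1
    simp
  · rw [if_neg h1]
    have hne : h.toWord ≠ [] := fun h2 => h1 (FreeGroup.toWord_eq_nil_iff.1 h2)
    obtain ⟨hd, tl, hw⟩ := List.exists_cons_of_ne_nil hne
    rw [card_eq_one]
    refine ⟨(hd.1, !hd.2), ?_⟩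
    ext s
    simp only [mem_filter, mem_univ, true_and, mem_singleton]
    constructor
    · intro hs
      by_contra hcon
      have := norm_letter_mul s h fun hd' tl' hw' => by
        rw [hw] at hw'
        obtain ⟨rfl, rfl⟩ := List.cons.inj hw'
        exact hcon
      omega
    · rintro rfl
      rcases norm_letter_cases (hd.1, !hd.2) h with h2 | h2
      · exfalso
        have e1 : Letter.val (hd.1, !hd.2) * h = FreeGroup.mk ((hd.1, !hd.2) :: h.toWord) := by
          conv_lhs => rw [← FreeGroup.mk_toWord (x := h)]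
          simp [Letter.val]
        rw [e1] at h2
        unfold FreeGroup.norm at h2
        rw [FreeGroup.toWord_mk, FreeGroup.reduce.cons, FreeGroup.reduce_toWord, hw] at h2
        simp at h2
        omega
      · exact h2

/-- The number of letters lengthening `h`. -/
theorem card_up (h : F2) :
    (univ.filter fun s : Letter => (Letter.val s * h).norm = h.norm + 1).card =
      if h = 1 then 4 else 3 := by
  have h0 : (univ.filter fun s : Letter => (Letter.val s * h).norm = h.norm + 1).card +
      (univ.filter fun s : Letter => ¬ (Letter.val s * h).norm = h.norm + 1).card = 4 := by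
    rw [card_filter_add_card_filter_not]
    rfl
  have h1 : (univ.filter fun s : Letter => ¬ (Letter.val s * h).norm = h.norm + 1) =
      univ.filter fun s : Letter => (Letter.val s * h).norm + 1 = h.norm := by
    ext s
    simp only [mem_filter, mem_univ, true_and]
    rcases norm_letter_cases s h with h2 | h2
    · omega
    · omega
  rw [h1, card_down] at h0
  by_cases h2 : h = 1
  · simp only [h2, if_true] at h0 ⊢; omega
  · simp only [h2, if_false] at h0 ⊢; omega

theorem finite_nb (n : ℕ) : {h : F2 | h.norm = n + 1 ∨ h.norm + 1 = n}.Finite := by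
  have h1 := finite_sphere (n + 1)
  have h2 := finite_sphere (n - 1)
  refine (h1.union h2).subset ?_
  rintro h (hh | hh)
  · exact Or.inl hh
  · right
    change h.norm = n - 1
    omega

theorem sum_sphere_aux (φ : F2 → ℝ) (n : ℕ) :
    ∑ g ∈ sph n, ∑ s : Letter, φ (Letter.val s * g) =
      ∑ h ∈ (finite_nb n).toFinset,
        ((univ.filter fun s : Letter => (Letter.val s * h).norm = n).card : ℝ) * φ h := by
  rw [sum_comm]
  have h1 : ∀ s : Letter, ∑ g ∈ sph n, φ (Letter.val s * g) =
      ∑ h ∈ (finite_nb n).toFinset, if ((Letter.val s)⁻¹ * h).norm = n then φ h else 0 := by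
    intro s
    rw [← sum_filter]
    refine sum_bij' (fun g _ => Letter.val s * g) (fun h _ => (Letter.val s)⁻¹ * h) ?_ ?_ ?_ ?_ ?_
    · intro g hg
      rw [mem_sph] at hg
      simp only [mem_filter, Set.Finite.mem_toFinset, Set.mem_ofPred_eq, inv_mul_cancel_left]
      refine ⟨?_, hg⟩
      have := norm_letter_cases s g
      omega
    · intro h hh
      simp only [mem_filter, Set.Finite.mem_toFinset, Set.mem_ofPred_eq] at hh
      exact mem_sph.2 hh.2
    · intro g _; simp
    · intro h _; simp
    · intro g _; rfl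
  rw [sum_congr rfl fun s _ => h1 s, sum_comm]
  refine sum_congr rfl fun h _ => ?_
  rw [← sum_filter, sum_const, nsmul_eq_mul]
  congr 2
  refine card_bij' (fun s _ => (s.1, !s.2)) (fun s _ => (s.1, !s.2)) ?_ ?_ ?_ ?_
  · intro s hs
    simp only [mem_filter, mem_univ, true_and] at hs ⊢
    rw [val_inv]; exact hs
  · intro s hs
    simp only [mem_filter, mem_univ, true_and] at hs ⊢
    rw [val_inv, inv_inv]; exact hs
  · intro s _; simp
  · intro s _; simp

theorem sum_sphere_zero (φ : F2 → ℝ) :
    ∑ g ∈ sph 0, ∑ s : Letter, φ (Letter.val s * g) = ∑ h ∈ sph 1, φ h := by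
  rw [sum_sphere_aux]
  have e : (finite_nb 0).toFinset = sph 1 := by
    ext h; simp [mem_sph]
  rw [e]
  refine sum_congr rfl fun h hh => ?_
  rw [mem_sph] at hh
  have h1 : (univ.filter fun s : Letter => (Letter.val s * h).norm = 0) =
      univ.filter fun s : Letter => (Letter.val s * h).norm + 1 = h.norm := by
    ext s; simp only [mem_filter, mem_univ, true_and]; omega
  rw [h1, card_down, if_neg]
  · simp
  · rintro rfl; simp at hh

theorem sum_sphere (φ : F2 → ℝ) (n : ℕ) :
    ∑ g ∈ sph (n + 1), ∑ s : Letter, φ (Letter.val s * g) =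
      ∑ h ∈ sph (n + 2), φ h + (if n = 0 then 4 else 3) * ∑ h ∈ sph n, φ h := by
  rw [sum_sphere_aux]
  have e : (finite_nb (n + 1)).toFinset = sph (n + 2) ∪ sph n := by
    ext h; simp [mem_sph, add_assoc]
  have hd : Disjoint (sph (n + 2)) (sph n) := by
    rw [disjoint_left]
    intro h h1 h2
    rw [mem_sph] at h1 h2
    omega
  rw [e, sum_union hd, mul_sum]
  congr 1
  · refine sum_congr rfl fun h hh => ?_
    rw [mem_sph] at hh
    have h1 : (univ.filter fun s : Letter => (Letter.val s * h).norm = n + 1) =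
        univ.filter fun s : Letter => (Letter.val s * h).norm + 1 = h.norm := by
      ext s; simp only [mem_filter, mem_univ, true_and]; omega
    rw [h1, card_down, if_neg]
    · simp
    · rintro rfl; simp at hh
  · refine sum_congr rfl fun h hh => ?_
    rw [mem_sph] at hh
    subst hh
    rw [card_up]
    congr 1
    by_cases h1 : h = 1
    · simp [h1]
    · have : h.norm ≠ 0 := fun h2 => h1 (FreeGroup.norm_eq_zero.1 h2)
      simp [h1, this]

theorem sph_zero : sph 0 = {1} := by
  ext g; simp [mem_sph]

theorem card_sph (n : ℕ) : ((sph (n + 1)).card : ℝ) = 4 * 3 ^ n := by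
  have c0 : ((sph 0).card : ℝ) = 1 := by rw [sph_zero]; simp
  have c1 : ((sph 1).card : ℝ) = 4 := by
    have := sum_sphere_zero (fun _ => (1 : ℝ))
    rw [sph_zero] at this
    simp at this
    linarith
  have hr : ∀ n : ℕ, (4 : ℝ) * (sph (n + 1)).card =
      (sph (n + 2)).card + (if n = 0 then 4 else 3) * (sph n).card := by
    intro n
    have := sum_sphere (fun _ => (1 : ℝ)) n
    simp only [sum_const, card_univ, nsmul_eq_mul, mul_one] at this
    rw [← this]
    simp
    ring
  have key : ∀ n : ℕ, ((sph (n + 1)).card : ℝ) = 4 * 3 ^ n ∧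
      ((sph (n + 2)).card : ℝ) = 4 * 3 ^ (n + 1) := by
    intro n
    induction n with
    | zero =>
      refine ⟨by rw [c1]; norm_num, ?_⟩
      have := hr 0
      rw [zero_add, c1, c0] at this
      simp only [zero_add, if_true] at this ⊢
      linarith
    | succ n ih =>
      refine ⟨ih.2, ?_⟩
      have := hr (n + 1)
      rw [ih.2, ih.1] at this
      simp only [Nat.succ_ne_zero, if_false] at this
      rw [show n + 1 + 2 = n + 1 + 2 from rfl]
      rw [pow_succ 3 (n + 1), pow_succ 3 n] at *
      linarith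
  exact (key n).1

/-- There is no square summable eigenfunction on the four-regular tree. -/
theorem no_l2 (φ : F2 → ℝ) (hs : Summable fun g => φ g ^ 2) (lam : ℝ)
    (he : ∀ g, ∑ s : Letter, φ (Letter.val s * g) = lam * φ g) : φ 1 = 0 := by
  set a : ℕ → ℝ := fun n => ∑ g ∈ sph n, φ g with ha
  set t : ℕ → ℝ := fun n => ∑ g ∈ sph n, φ g ^ 2 with ht
  have a0 : a 0 = φ 1 := by simp [ha, sph_zero]
  have a1 : a 1 = lam * a 0 := by
    have := sum_sphere_zero φ
    simp only [he] at this
    rw [← mul_sum] at this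
    exact this.symm
  have ar : ∀ n, lam * a (n + 1) = a (n + 2) + (if n = 0 then 4 else 3) * a n := by
    intro n
    have := sum_sphere φ n
    simp only [he] at this
    rw [← mul_sum] at this
    exact this
  have tn : ∀ n, 0 ≤ t n := fun n => sum_nonneg fun g _ => sq_nonneg _
  have cs : ∀ n, a (n + 1) ^ 2 ≤ 4 * 3 ^ n * t (n + 1) := by
    intro n
    rw [← card_sph]
    exact sq_sum_le_card_mul_sum_sq
  have tlim : Tendsto t atTop (𝓝 0) := by
    rw [Metric.tendsto_atTop]
    intro ε hε
    obtain ⟨K, hK⟩ := hs.vanishing (Metric.ball_mem_nhds (0 : ℝ) hε)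
    refine ⟨K.sup FreeGroup.norm + 1, fun n hn => ?_⟩
    have hd : Disjoint (sph n) K := by
      rw [disjoint_left]
      intro g hg hgK
      rw [mem_sph] at hg
      have : g.norm ≤ K.sup FreeGroup.norm := le_sup (f := FreeGroup.norm) hgK
      omega
    have := hK (sph n) hd
    simpa [Metric.mem_ball, dist_eq_norm] using this
  -- the conserved quantity
  have q : ∀ n, a (n + 2) ^ 2 + 3 * a (n + 1) ^ 2 - lam * a (n + 1) * a (n + 2) =
      3 ^ n * (a 0 ^ 2 * (16 - lam ^ 2)) := by
    intro n
    induction n with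
    | zero =>
      have := ar 0
      simp only [if_true, zero_add] at this
      have e2 : a 2 = lam * a 1 - 4 * a 0 := by linarith
      simp only [zero_add]
      rw [e2, a1]; ring
    | succ n ih =>
      have := ar (n + 1)
      simp only [Nat.succ_ne_zero, if_false] at this
      have e3 : a (n + 1 + 2) = lam * a (n + 1 + 1) - 3 * a (n + 1) := by linarith
      have e4 : a (n + 1 + 1) = a (n + 2) := rfl
      rw [e3, e4, pow_succ (3 : ℝ) n]
      have : 3 ^ n * 3 * (a 0 ^ 2 * (16 - lam ^ 2)) = 3 * (3 ^ n * (a 0 ^ 2 * (16 - lam ^ 2))) := by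
        ring
      rw [this, ← ih]; ring
  have hq : ∀ n, |a 0 ^ 2 * (16 - lam ^ 2)| ≤
      (12 * (1 + |lam|)) * t (n + 2) + (12 * (1 + |lam|)) * t (n + 1) := by
    intro n
    have p3 : (0 : ℝ) < 3 ^ n := by positivity
    have h1 : 3 ^ n * |a 0 ^ 2 * (16 - lam ^ 2)| ≤
        3 ^ n * ((12 * (1 + |lam|)) * t (n + 2) + (12 * (1 + |lam|)) * t (n + 1)) := by
      calc 3 ^ n * |a 0 ^ 2 * (16 - lam ^ 2)| = |3 ^ n * (a 0 ^ 2 * (16 - lam ^ 2))| := by
            rw [abs_mul (3 ^ n), abs_of_pos p3]
        _ = |a (n + 2) ^ 2 + 3 * a (n + 1) ^ 2 - lam * a (n + 1) * a (n + 2)| := by rw [q n]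
        _ ≤ a (n + 2) ^ 2 + 3 * a (n + 1) ^ 2 + |lam| * (a (n + 1) ^ 2 + a (n + 2) ^ 2) := by
            have h2 : |lam * a (n + 1) * a (n + 2)| ≤ |lam| * (a (n + 1) ^ 2 + a (n + 2) ^ 2) := by
              rw [mul_assoc, abs_mul]
              refine mul_le_mul_of_nonneg_left ?_ (abs_nonneg _)
              rw [abs_le]
              constructor <;> nlinarith [sq_nonneg (a (n + 1) + a (n + 2)),
                sq_nonneg (a (n + 1) - a (n + 2)), sq_nonneg (a (n + 1)), sq_nonneg (a (n + 2))]
            have h3 : |a (n + 2) ^ 2 + 3 * a (n + 1) ^ 2 - lam * a (n + 1) * a (n + 2)| ≤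
                |a (n + 2) ^ 2 + 3 * a (n + 1) ^ 2| + |lam * a (n + 1) * a (n + 2)| := by
              exact abs_sub _ _
            have h4 : |a (n + 2) ^ 2 + 3 * a (n + 1) ^ 2| = a (n + 2) ^ 2 + 3 * a (n + 1) ^ 2 :=
              abs_of_nonneg (by positivity)
            linarith
        _ ≤ (1 + |lam|) * (4 * 3 ^ (n + 1) * t (n + 2)) +
            (3 + |lam|) * (4 * 3 ^ n * t (n + 1)) := by
            have h5 := cs (n + 1)
            have h6 := cs n
            have h7 : (0 : ℝ) ≤ 1 + |lam| := by positivity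
            have h8 : (0 : ℝ) ≤ 3 + |lam| := by positivity
            have h9 := mul_le_mul_of_nonneg_left h5 h7
            have h10 := mul_le_mul_of_nonneg_left h6 h8
            have e5 : a (n + 1 + 1) = a (n + 2) := rfl
            have e6 : t (n + 1 + 1) = t (n + 2) := rfl
            rw [e5, e6] at h9
            linarith
        _ ≤ _ := by
            have t1 := tn (n + 1)
            have t2 := tn (n + 2)
            have l0 := abs_nonneg lam
            have e7 : (1 + |lam|) * (4 * 3 ^ (n + 1) * t (n + 2)) =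
                3 ^ n * ((12 * (1 + |lam|)) * t (n + 2)) := by rw [pow_succ]; ring
            have e8 : (3 + |lam|) * (4 * 3 ^ n * t (n + 1)) ≤
                3 ^ n * ((12 * (1 + |lam|)) * t (n + 1)) := by
              have : (3 + |lam|) * (4 * 3 ^ n * t (n + 1)) =
                3 ^ n * ((4 * (3 + |lam|)) * t (n + 1)) := by ring
              rw [this]
              refine mul_le_mul_of_nonneg_left ?_ p3.le
              refine mul_le_mul_of_nonneg_right ?_ t1
              linarith
            rw [mul_add, e7]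
            linarith
    exact le_of_mul_le_mul_left h1 p3
  have h0 : |a 0 ^ 2 * (16 - lam ^ 2)| ≤ 0 := by
    have l1 : Tendsto (fun n => (12 * (1 + |lam|)) * t (n + 2) + (12 * (1 + |lam|)) * t (n + 1))
        atTop (𝓝 ((12 * (1 + |lam|)) * 0 + (12 * (1 + |lam|)) * 0)) :=
      (((tendsto_add_atTop_iff_nat 2).2 tlim).const_mul _).add
        (((tendsto_add_atTop_iff_nat 1).2 tlim).const_mul _)
    simp only [mul_zero, add_zero] at l1
    exact ge_of_tendsto' l1 hq
  have h1 : a 0 ^ 2 * (16 - lam ^ 2) = 0 := abs_eq_zero.1 (le_antisymm h0 (abs_nonneg _))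
  rw [← a0]
  rcases mul_eq_zero.1 h1 with h2 | h2
  · exact pow_eq_zero_iff (two_ne_zero) |>.1 h2
  · have hl : lam ^ 2 = 16 := by linarith
    have key : ∀ n, a (n + 2) = (3 * lam / 4) * a (n + 1) := by
      intro n
      induction n with
      | zero =>
        have := ar 0
        simp only [if_true, zero_add] at this
        have e2 : a 2 = lam * a 1 - 4 * a 0 := by linarith
        simp only [zero_add]
        have e3 : 4 * a 0 = lam / 4 * a 1 := by
          rw [a1]
          have : lam / 4 * (lam * a 0) = lam ^ 2 / 4 * a 0 := by ring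
          rw [this, hl]; ring
        rw [e2, e3]; ring
      | succ n ih =>
        have := ar (n + 1)
        simp only [Nat.succ_ne_zero, if_false] at this
        have e3 : a (n + 1 + 2) = lam * a (n + 1 + 1) - 3 * a (n + 1) := by linarith
        have e4 : a (n + 1 + 1) = a (n + 2) := rfl
        have e5 : 3 * a (n + 1) = lam / 4 * a (n + 2) := by
          rw [ih]
          have : lam / 4 * (3 * lam / 4 * a (n + 1)) = lam ^ 2 * (3 / 16) * a (n + 1) := by ring
          rw [this, hl]; ring
        rw [e3, e4, e5]; ring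
    have key2 : ∀ n, a (n + 1) ^ 2 = 9 ^ n * (16 * a 0 ^ 2) := by
      intro n
      induction n with
      | zero => rw [zero_add, a1, mul_pow, hl]; ring
      | succ n ih =>
        have : a (n + 1 + 1) ^ 2 = lam ^ 2 * (9 / 16) * a (n + 1) ^ 2 := by
          rw [show a (n + 1 + 1) = a (n + 2) from rfl, key n]; ring
        rw [this, hl, ih, pow_succ]; ring
    have hb : ∀ n, a 0 ^ 2 ≤ t (n + 1) := by
      intro n
      have h3 := cs n
      rw [key2 n] at h3
      have p3 : (0 : ℝ) < 3 ^ n := by positivity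
      have h4 : (9 : ℝ) ^ n = 3 ^ n * 3 ^ n := by rw [← mul_pow]; norm_num
      rw [h4] at h3
      have h5 : 3 ^ n * (16 * a 0 ^ 2) ≤ 4 * t (n + 1) := by
        have : 3 ^ n * (3 ^ n * (16 * a 0 ^ 2)) ≤ 3 ^ n * (4 * t (n + 1)) := by linarith
        exact le_of_mul_le_mul_left this p3
      have h6 : (1 : ℝ) ≤ 3 ^ n := one_le_pow₀ (by norm_num)
      have h7 : 1 * (16 * a 0 ^ 2) ≤ 3 ^ n * (16 * a 0 ^ 2) :=
        mul_le_mul_of_nonneg_right h6 (by positivity)
      nlinarith [sq_nonneg (a 0)]
    have h3 : a 0 ^ 2 ≤ 0 := ge_of_tendsto' ((tendsto_add_atTop_iff_nat 1).2 tlim) hb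
    exact pow_eq_zero_iff (two_ne_zero) |>.1 (le_antisymm h3 (sq_nonneg _))

end Pool.Agent.Helper260
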