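import Pool.Agent.Helper260_edgecol.Eigen

set_option autoImplicit false

namespace Pool.Agent.Helper260

open MeasureTheory ProbabilityTheory Finset Pool.Agent.R987.Bern

theorem integral_act' (g : F2) (F : Pt → ℂ) : ∫ x, F (act g x) ∂mu = ∫ x, F x ∂mu :=
  (mp_act g).integral_comp (actEquiv g).measurableEmbedding F

/-- The Koopman operator of a group element. -/
noncomputable def koop (g : F2) : Lp ℂ 2 mu →ₗ[ℂ] Lp ℂ 2 mu :=
  Lp.compMeasurePreservingₗ ℂ (act g) (mp_act g)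

theorem koop_coe (g : F2) (u : Lp ℂ 2 mu) : ∀ᵐ x ∂mu, koop g u x = u (act g x) :=
  Lp.coeFn_compMeasurePreserving u (mp_act g)

theorem koop_adj (g : F2) (u v : Lp ℂ 2 mu) : inner ℂ (koop g u) v = inner ℂ u (koop g⁻¹ v) := by
  rw [L2.inner_def, L2.inner_def]
  have h1 : ∫ x, inner ℂ (koop g u x) (v x) ∂mu = ∫ x, inner ℂ (u (act g x)) (v x) ∂mu := by
    refine integral_congr_ae ?_
    filter_upwards [koop_coe g u] with x hx
    simp only [hx]
  have h2 : ∫ x, inner ℂ (u x) (koop g⁻¹ v x) ∂mu = ∫ x, inner ℂ (u x) (v (act g⁻¹ x)) ∂mu := by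
    refine integral_congr_ae ?_
    filter_upwards [koop_coe g⁻¹ v] with x hx
    simp only [hx]
  rw [h1, h2, ← integral_act' g (fun x => inner ℂ (u x) (v (act g⁻¹ x)))]
  have h3 : ∀ x, act g⁻¹ (act g x) = x := fun x => by rw [← act_mul]; simp [act_one]
  simp only [h3]

/-- The adjacency operator. -/
noncomputable def adj : Lp ℂ 2 mu →ₗ[ℂ] Lp ℂ 2 mu := ∑ s : Letter, koop (Letter.val s)

theorem adj_symm : adj.IsSymmetric := by
  intro u v
  simp only [adj, LinearMap.sum_apply, sum_inner, inner_sum, koop_adj]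
  refine Finset.sum_bij' (fun s _ => (s.1, !s.2)) (fun s _ => (s.1, !s.2)) ?_ ?_ ?_ ?_ ?_
  · intro s _; simp
  · intro s _; simp
  · intro s _; simp
  · intro s _; simp
  · intro s _; rw [val_inv]

theorem adj_coe (u : Lp ℂ 2 mu) :
    ∀ᵐ x ∂mu, adj u x = ∑ s : Letter, u (act (Letter.val s) x) := by
  have h1 : ∀ᵐ x ∂mu, ∀ s : Letter, koop (Letter.val s) u x = u (act (Letter.val s) x) :=
    ae_all_iff.2 fun s => koop_coe _ u
  have h2 : ∀ᵐ x ∂mu, adj u x = ∑ s : Letter, koop (Letter.val s) u x := by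
    have : adj u = ∑ s : Letter, koop (Letter.val s) u := by simp [adj]
    rw [this]
    have := Lp.coeFn_finsetSum (μ := mu) (p := 2) (Finset.univ : Finset Letter)
      (fun s => koop (Letter.val s) u)
    filter_upwards [this] with x hx
    rw [hx]
    simp
  filter_upwards [h1, h2] with x hx1 hx2
  rw [hx2]
  exact sum_congr rfl fun s _ => hx1 s

/-- Eigenvectors of the adjacency operator with a real eigenvalue are constant. -/
theorem eigen_const_complex (u : Lp ℂ 2 mu) (lam : ℝ) (hu : adj u = (lam : ℂ) • u) :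
    ∃ z : ℂ, ∀ᵐ x ∂mu, u x = z := by
  have h1 : ∀ᵐ x ∂mu, ∑ s : Letter, u (act (Letter.val s) x) = (lam : ℂ) * u x := by
    have h2 := adj_coe u
    have h3 := Lp.coeFn_smul (lam : ℂ) u
    rw [hu] at h2
    filter_upwards [h2, h3] with x hx2 hx3
    rw [← hx2, hx3]
    rfl
  have hm := Lp.memLp u
  obtain ⟨z1, hz1⟩ := eigen_const hm.re lam (by
    filter_upwards [h1] with x hx
    have := congrArg Complex.re hx
    simpa using this)
  obtain ⟨z2, hz2⟩ := eigen_const hm.im lam (by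
    filter_upwards [h1] with x hx
    have := congrArg Complex.im hx
    simpa using this)
  refine ⟨⟨z1, z2⟩, ?_⟩
  filter_upwards [hz1, hz2] with x hx1 hx2
  exact Complex.ext hx1 hx2

/-- A finite dimensional subspace invariant under the adjacency operator consists of constants. -/
theorem const_of_invariant (V : Submodule ℂ (Lp ℂ 2 mu)) [FiniteDimensional ℂ V]
    (hV : ∀ v ∈ V, adj v ∈ V) (v : Lp ℂ 2 mu) (hv : v ∈ V) : ∃ z : ℂ, ∀ᵐ x ∂mu, v x = z := by
  have hs := adj_symm.restrict_invariant hV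
  set b := hs.eigenvectorBasis rfl with hb
  have hconst : ∀ j, ∃ z : ℂ, ∀ᵐ x ∂mu, (b j : Lp ℂ 2 mu) x = z := by
    intro j
    refine eigen_const_complex (b j : Lp ℂ 2 mu) (hs.eigenvalues rfl j) ?_
    have h1 := hs.apply_eigenvectorBasis rfl j
    have h2 := congrArg Subtype.val h1
    exact h2
  have h1 : v = ∑ j, (b.repr ⟨v, hv⟩ j) • (b j : Lp ℂ 2 mu) := by
    have h2 := congrArg Subtype.val (b.sum_repr ⟨v, hv⟩)
    simpa using h2.symm
  choose z hz using hconst
  refine ⟨∑ j, (b.repr ⟨v, hv⟩ j) * z j, ?_⟩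
  have h2 : ∀ᵐ x ∂mu, v x = ∑ j, ((b.repr ⟨v, hv⟩ j) • (b j : Lp ℂ 2 mu) : Lp ℂ 2 mu) x := by
    have := Lp.coeFn_finsetSum (μ := mu) (p := 2) (Finset.univ : Finset (Fin _))
      (fun j => (b.repr ⟨v, hv⟩ j) • (b j : Lp ℂ 2 mu))
    rw [← h1] at this
    filter_upwards [this] with x hx
    rw [hx]
    simp
  have h3 : ∀ᵐ x ∂mu, ∀ j, ((b.repr ⟨v, hv⟩ j) • (b j : Lp ℂ 2 mu) : Lp ℂ 2 mu) x =
      (b.repr ⟨v, hv⟩ j) * z j := by
    refine ae_all_iff.2 fun j => ?_
    filter_upwards [Lp.coeFn_smul (b.repr ⟨v, hv⟩ j) (b j : Lp ℂ 2 mu), hz j] with x hx1 hx2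
    rw [hx1, Pi.smul_apply, hx2, smul_eq_mul]
  filter_upwards [h2, h3] with x hx2 hx3
  rw [hx2]
  exact sum_congr rfl fun j _ => hx3 j

/-- The colour involutions of a measurable proper 4-edge-colouring generate a weakly mixing
action. -/
theorem weak_mixing {Y : Set Pt} {c : Fin 2 → Pt → Fin 4} (hc : IsMeasColouring 4 Y c) {n : ℕ}
    (f : Fin n → Pt → ℂ) (hf : ∀ j, MemLp (f j) 2 mu)
    (hinv : ∀ (i : Fin 4) (j : Fin n), ∃ m : Fin n → ℂ, ∀ᵐ x ∂mu, ∀ s : Letter,
      edgeColour c s x = i → f j (act (Letter.val s) x) = ∑ k, m k * f k x) (j : Fin n) :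
    ∃ z : ℂ, ∀ᵐ x ∂mu, f j x = z := by
  set F : Fin n → Lp ℂ 2 mu := fun j => (hf j).toLp (f j) with hF
  have hFc : ∀ j, ∀ᵐ x ∂mu, F j x = f j x := fun j => (hf j).coeFn_toLp
  set V : Submodule ℂ (Lp ℂ 2 mu) := Submodule.span ℂ (Set.range F) with hV
  have : FiniteDimensional ℂ V := FiniteDimensional.span_of_finite ℂ (Set.finite_range F)
  have hmem : ∀ j, F j ∈ V := fun j => Submodule.subset_span ⟨j, rfl⟩
  choose m hm using hinv
  have key : ∀ j, adj (F j) = ∑ k, (∑ i, m i j k) • F k := by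
    intro j
    refine Lp.ext ?_
    have h1 := adj_coe (F j)
    have h2 : ∀ᵐ x ∂mu, ∀ s : Letter, F j (act (Letter.val s) x) = f j (act (Letter.val s) x) :=
      ae_all_iff.2 fun s => (mp_act _).quasiMeasurePreserving.ae (hFc j)
    have h3 : ∀ᵐ x ∂mu, ∀ i, ∀ s : Letter,
        edgeColour c s x = i → f j (act (Letter.val s) x) = ∑ k, m i j k * f k x :=
      ae_all_iff.2 fun i => hm i j
    have h4 : ∀ᵐ x ∂mu, ∀ k, F k x = f k x := ae_all_iff.2 hFc
    have h5 : ∀ᵐ x ∂mu, (∑ k, (∑ i, m i j k) • F k : Lp ℂ 2 mu) x =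
        ∑ k, ((∑ i, m i j k) • F k : Lp ℂ 2 mu) x := by
      have := Lp.coeFn_finsetSum (μ := mu) (p := 2) (Finset.univ : Finset (Fin n))
        (fun k => (∑ i, m i j k) • F k)
      filter_upwards [this] with x hx
      rw [hx]
      simp
    have h6 : ∀ᵐ x ∂mu, ∀ k, ((∑ i, m i j k) • F k : Lp ℂ 2 mu) x = (∑ i, m i j k) * F k x := by
      refine ae_all_iff.2 fun k => ?_
      filter_upwards [Lp.coeFn_smul (∑ i, m i j k) (F k)] with x hx
      rw [hx]
      rfl
    have h7 := ae_mem hc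
    filter_upwards [h1, h2, h3, h4, h5, h6, h7] with x x1 x2 x3 x4 x5 x6 x7
    rw [x1, x5]
    have e1 : ∑ s : Letter, F j (act (Letter.val s) x) =
        ∑ s : Letter, ∑ k, m (edgeColour c s x) j k * f k x :=
      sum_congr rfl fun s _ => (x2 s).trans (x3 _ s rfl)
    have e2 : ∑ s : Letter, ∑ k, m (edgeColour c s x) j k * f k x =
        ∑ i, ∑ k, m i j k * f k x :=
      Function.Bijective.sum_comp (bij hc x7) (fun i => ∑ k, m i j k * f k x)
    rw [e1, e2, sum_comm]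
    refine sum_congr rfl fun k _ => ?_
    rw [x6 k, x4 k, sum_mul]
  have hinvV : ∀ v ∈ V, adj v ∈ V := by
    intro v hv
    induction hv using Submodule.span_induction with
    | mem v hv =>
      obtain ⟨j, rfl⟩ := hv
      rw [key j]
      exact Submodule.sum_mem _ fun k _ => Submodule.smul_mem _ _ (hmem k)
    | zero => simp
    | add u v _ _ hu hv => rw [map_add]; exact Submodule.add_mem _ hu hv
    | smul a v _ hv => rw [map_smul]; exact Submodule.smul_mem _ _ hv
  obtain ⟨z, hz⟩ := const_of_invariant V hinvV (F j) (hmem j)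
  refine ⟨z, ?_⟩
  filter_upwards [hz, hFc j] with x h1 h2
  rw [← h2, h1]

end Pool.Agent.Helper260
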